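import Mathlib
import Pool.Agent.W609.Sesh.Base

set_option autoImplicit false

/-!
# Seshadri constants at many very general points, up to an exponentially small error

`X` is the blow-up of the complex projective plane at `r ≥ 0` points, `L = c H - ∑ l_j E_j`.
For all `k ≥ 1` and `n ≥ 2 ^ 1000`, at very general points,
`ε(k n; X, L) ≥ ε(k; X, L) / ((1 + exp (-n ^ (1 / 10))) √n)`.  So if `ε(k; X, L)` is equal to
`√(L² / k)` for some `k`, then `ε(k n; X, L) = √(L² / (k n))` up to the exponentially small factor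
`1 + exp (-n ^ (1 / 10))`.  For `r = 0`, `k = 1` this is
`ε(n; ℙ², O(1)) ≥ 1 / ((1 + exp (-n ^ (1 / 10))) √n)`.  For `L = N H - E_1 - ⋯ - E_r`, `r < N²`,
of self-intersection `L² = N² - r`, it gives `ε(L² n; X, L) ≥ 1 / ((1 + exp (-n ^ (1 / 10))) √n)`.
-/

namespace Pool.Agent.Results.MP_ed661f_ag.ExponentialSeshadri

open Pool.Agent.H932R3 Pool.Agent.H350R3 Pool.Agent.H350R3.GR

/-- `MultGE a F m`: the form `F` has multiplicity at least `m` at the point `(a 0 : a 1 : 1)`. -/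
def MultGE (a : Fin 2 → ℂ) (F : MvPolynomial (Fin 3) ℂ) (m : ℕ) : Prop :=
  ∀ s ∈ (MvPolynomial.aeval
    ![(MvPolynomial.X 0 : MvPolynomial (Fin 2) ℂ) + MvPolynomial.C (a 0),
      (MvPolynomial.X 1 : MvPolynomial (Fin 2) ℂ) + MvPolynomial.C (a 1),
      (1 : MvPolynomial (Fin 2) ℂ)] F).support, m ≤ s 0 + s 1

/-- The class `c H - ∑ l_j E_j` on the blow-up of the plane at the points `p j` is nonnegative on
the proper transforms of all plane curves. -/
def NonnegOnCurves {r : ℕ} (c : ℝ) (l : Fin r → ℝ) (p : Fin r → Fin 2 → ℂ) : Prop :=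
  ∀ (F : MvPolynomial (Fin 3) ℂ) (e : ℕ) (a : Fin r → ℕ), F ≠ 0 → F.IsHomogeneous e →
    (∀ j, MultGE (p j) F (a j)) → 0 ≤ c * e - ∑ j, l j * (a j : ℝ)

/-- The Seshadri constant, at the points `x i`, of the class `L = c H - ∑ l_j E_j` on the blow-up
of the plane at the points `p j`: the infimum of `(L . C) / ∑ mult C` over the proper transforms
`C` of the plane curves `F = 0` (of degree `e`, with multiplicities at least `a j` at `p j` and
at least `m i` at `x i`). -/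
noncomputable def seshadri {r n : ℕ} (c : ℝ) (l : Fin r → ℝ) (p : Fin r → Fin 2 → ℂ)
    (x : Fin n → Fin 2 → ℂ) : ℝ :=
  sInf {t : ℝ | ∃ (F : MvPolynomial (Fin 3) ℂ) (e : ℕ) (a : Fin r → ℕ) (m : Fin n → ℕ),
    F ≠ 0 ∧ F.IsHomogeneous e ∧ (∀ j, MultGE (p j) F (a j)) ∧ (∀ i, MultGE (x i) F (m i)) ∧
    0 < ∑ i, m i ∧ t = (c * e - ∑ j, l j * (a j : ℝ)) / ((∑ i, m i : ℕ) : ℝ)}

theorem line_mult (a : Fin 2 → ℂ) :
    MultGE a (MvPolynomial.X 0 - MvPolynomial.C (a 0) * MvPolynomial.X 2) 1 := by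
  intro s hs
  have h1 : (MvPolynomial.aeval
    ![(MvPolynomial.X 0 : MvPolynomial (Fin 2) ℂ) + MvPolynomial.C (a 0),
      (MvPolynomial.X 1 : MvPolynomial (Fin 2) ℂ) + MvPolynomial.C (a 1),
      (1 : MvPolynomial (Fin 2) ℂ)] (MvPolynomial.X 0 - MvPolynomial.C (a 0) * MvPolynomial.X 2 :
        MvPolynomial (Fin 3) ℂ)) = MvPolynomial.X 0 := by
    rw [map_sub, map_mul, MvPolynomial.aeval_X, MvPolynomial.aeval_X, MvPolynomial.aeval_C]
    simp
  rw [h1, MvPolynomial.mem_support_iff, MvPolynomial.coeff_X] at hs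
  split_ifs at hs with h
  · rw [← h]
    simp
  · exact absurd rfl hs

theorem line_ne (a : ℂ) :
    (MvPolynomial.X 0 - MvPolynomial.C a * MvPolynomial.X 2 : MvPolynomial (Fin 3) ℂ) ≠ 0 := by
  intro h
  have h1 := congrArg (MvPolynomial.eval (![1, 0, 0] : Fin 3 → ℂ)) h
  simp at h1

theorem line_hom (a : ℂ) :
    (MvPolynomial.X 0 - MvPolynomial.C a * MvPolynomial.X 2 :
      MvPolynomial (Fin 3) ℂ).IsHomogeneous 1 := by
  refine (MvPolynomial.isHomogeneous_X ℂ 0).sub ?_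
  have := (MvPolynomial.isHomogeneous_C (Fin 3) a).mul (MvPolynomial.isHomogeneous_X ℂ (2 : Fin 3))
  simpa using this

theorem mult_zero (a : Fin 2 → ℂ) (F : MvPolynomial (Fin 3) ℂ) : MultGE a F 0 :=
  fun _ _ => Nat.zero_le _

theorem le_seshadri {r n : ℕ} (hn : 0 < n) {c t : ℝ} {l : Fin r → ℝ} {p : Fin r → Fin 2 → ℂ}
    {x : Fin n → Fin 2 → ℂ}
    (h : ∀ (F : MvPolynomial (Fin 3) ℂ) (e : ℕ) (a : Fin r → ℕ) (m : Fin n → ℕ), F ≠ 0 →
      F.IsHomogeneous e → (∀ j, MultGE (p j) F (a j)) → (∀ i, MultGE (x i) F (m i)) →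
      ∑ j, l j * (a j : ℝ) + t * ((∑ i, m i : ℕ) : ℝ) ≤ c * e) : t ≤ seshadri c l p x := by
  classical
  refine le_csInf ⟨_, MvPolynomial.X 0 - MvPolynomial.C (x ⟨0, hn⟩ 0) * MvPolynomial.X 2, 1,
    fun _ => 0, fun i => if i = ⟨0, hn⟩ then 1 else 0, line_ne _, line_hom _,
    fun _ => mult_zero _ _, fun i => ?_, ?_, rfl⟩ ?_
  · by_cases hi : i = ⟨0, hn⟩
    · simp only [if_pos hi]
      rw [hi]
      exact line_mult _
    · simp only [if_neg hi]
      exact mult_zero _ _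
  · rw [Finset.sum_ite_eq' Finset.univ]
    simp
  · rintro _ ⟨F, e, a, m, h0, hF, ha, hm, hpos, rfl⟩
    have h1 := h F e a m h0 hF ha hm
    have h2 : (0 : ℝ) < ((∑ i, m i : ℕ) : ℝ) := Nat.cast_pos.2 hpos
    rw [le_div_iff₀ h2]
    linarith

theorem bdd_seshadri {r n : ℕ} {c : ℝ} {l : Fin r → ℝ} {p : Fin r → Fin 2 → ℂ}
    {x : Fin n → Fin 2 → ℂ} (h : NonnegOnCurves c l p) :
    0 ≤ seshadri c l p x ∧
    ∀ (F : MvPolynomial (Fin 3) ℂ) (e : ℕ) (a : Fin r → ℕ) (m : Fin n → ℕ), F ≠ 0 →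
      F.IsHomogeneous e → (∀ j, MultGE (p j) F (a j)) → (∀ i, MultGE (x i) F (m i)) →
      ∑ j, l j * (a j : ℝ) + seshadri c l p x * ((∑ i, m i : ℕ) : ℝ) ≤ c * e := by
  constructor
  · refine Real.sInf_nonneg ?_
    rintro _ ⟨F, e, a, m, h0, hF, ha, hm, hpos, rfl⟩
    exact div_nonneg (h F e a h0 hF ha) (Nat.cast_nonneg _)
  · intro F e a m h0 hF ha hm
    rcases Nat.eq_zero_or_pos (∑ i, m i) with h1 | h1
    · rw [h1, Nat.cast_zero, mul_zero, add_zero]
      linarith [h F e a h0 hF ha]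
    · have h2 : (0 : ℝ) < ((∑ i, m i : ℕ) : ℝ) := Nat.cast_pos.2 h1
      have h3 : seshadri c l p x ≤ (c * e - ∑ j, l j * (a j : ℝ)) / ((∑ i, m i : ℕ) : ℝ) := by
        refine csInf_le ⟨0, ?_⟩ ⟨F, e, a, m, h0, hF, ha, hm, h1, rfl⟩
        rintro _ ⟨F, e, a, m, h0, hF, ha, hm, hpos, rfl⟩
        exact div_nonneg (h F e a h0 hF ha) (Nat.cast_nonneg _)
      rw [le_div_iff₀ h2] at h3
      linarith

theorem group {r k n : ℕ} {c t E : ℝ} (hE : 0 < E) (hn : NB.Nf ℂ (fun _ : Fin n => (1 : ℝ)) E)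
    {l : Fin r → ℝ} (hl : ∀ j, 0 ≤ l j) (ht : 0 ≤ t)
    (h : NB.Nf ℂ (Fin.append l (fun _ : Fin k => t)) c) :
    NB.Nf ℂ (Fin.append l (fun _ : Fin (k * n) => t / E)) c := by
  classical
  have h1 : NB.Nf ℂ (Sum.elim l (fun _ : Fin k => t)) c := by
    refine nf_tr finSumFinEquiv.symm (fun i => ?_) h
    obtain ⟨j, rfl⟩ := finSumFinEquiv.surjective i
    rw [Equiv.symm_apply_apply]
    rcases j with j | j
    · simp
    · simp
  have h2 := NB.Nf.comp (K := ℂ) (Sum.map id Prod.fst : Fin r ⊕ (Fin k × Fin n) → Fin r ⊕ Fin k)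
    (τ := Sum.elim l (fun _ : Fin k => t)) (c := c)
    (fun j => by
      rcases j with j | j
      · exact hl j
      · exact ht) h1 (t := fun _ => 1) (cc := Sum.elim (fun _ => 1) fun _ => E)
    (fun j => by
      rcases j with j | j
      · exact one_pos
      · exact hE)
    (fun j => by
      rcases j with j | j
      · refine nf_point _ (fun _ => rfl) ?_
        rintro ⟨i | i, hi⟩ ⟨i' | i', hi'⟩
        · simp only [Sum.map_inl, id, Sum.inl.injEq] at hi hi'
          subst hi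
          subst hi'
          rfl
        · cases hi'
        · cases hi
        · cases hi
      · refine nf_tr (ι := Fin n) (t := fun _ => (1 : ℝ)) (Equiv.ofBijective
          (fun i => ⟨Sum.inr (j, i), rfl⟩) ⟨?_, ?_⟩) (fun i => rfl) hn
        · intro i i' hii
          have h1 := congrArg Subtype.val hii
          exact (Prod.mk.inj (Sum.inr_injective h1)).2
        · rintro ⟨i | ⟨i, i'⟩, hi⟩
          · cases hi
          · simp only [Sum.map_inr, Sum.inr.injEq] at hi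
            subst hi
            exact ⟨i', rfl⟩)
  refine nf_tr ((Equiv.sumCongr (Equiv.refl (Fin r)) finProdFinEquiv).trans finSumFinEquiv)
    (fun i => ?_) h2
  rcases i with i | i
  · simp
  · simp [div_eq_mul_inv]

theorem nf_square {N : ℕ} (hN : 2 ≤ N) :
    NB.Nf ℂ (fun _ : Fin (N ^ 2) => (1 : ℝ)) (N : ℝ) := by
  have hm1 : ∀ k : ℕ, Mult 1 k (List.replicate k 1) := by
    intro k
    induction k with
    | zero => exact Mult.left 1
    | succ k ih =>
      rw [List.replicate_succ]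
      exact Mult.small 1 (k + 1) _ one_pos (by omega) (by rw [Nat.add_sub_cancel]; exact ih)
  have hm : ∀ k : ℕ, Mult k 1 (List.replicate k 1) := by
    intro k
    induction k with
    | zero => exact Mult.right 1
    | succ k ih =>
      rcases Nat.eq_zero_or_pos k with rfl | hk
      · exact hm1 1
      rw [List.replicate_succ]
      exact Mult.big (k + 1) 1 _ one_pos (by omega) (by rw [Nat.add_sub_cancel]; exact ih)
  have hN0 : (0 : ℝ) < (N : ℝ) ^ 2 := by
    have : (0 : ℝ) < N := Nat.cast_pos.2 (by omega)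
    positivity
  have h1 := nf_euclid (K := ℂ) (A := N ^ 2) (B := 1) (δ := N) (σ := (N : ℝ) ^ 2) (c := (N : ℝ))
    (by positivity) one_pos hN Reach.base (by
      push_cast
      rw [div_one, div_self hN0.ne', max_self, mul_one, one_mul, Real.sqrt_sq (Nat.cast_nonneg N)])
    (hm (N ^ 2))
  have hlen : (List.map (fun m : ℕ => (m : ℝ)) (List.replicate (N ^ 2) 1)).length = N ^ 2 := by
    simp
  refine nf_tr (finCongr hlen) (fun i => ?_) h1
  simp

theorem result :
    (∀ n : ℕ, 2 ^ 1000 ≤ n → ∃ f : ℕ → MvPolynomial (Fin n × Fin 2) ℂ, (∀ i, f i ≠ 0) ∧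
      ∀ x : Fin n → Fin 2 → ℂ,
        (∀ i, MvPolynomial.eval (fun q : Fin n × Fin 2 => x q.1 q.2) (f i) ≠ 0) →
        1 / ((1 + Real.exp (-((n : ℝ) ^ (1 / 10 : ℝ)))) * Real.sqrt n) ≤
          seshadri 1 (Fin.elim0 : Fin 0 → ℝ) Fin.elim0 x) ∧
    (∀ r N n : ℕ, 2 ≤ N → r < N ^ 2 → 2 ^ 1000 ≤ n →
      ∃ f : ℕ → MvPolynomial (Fin (r + (N ^ 2 - r) * n) × Fin 2) ℂ, (∀ i, f i ≠ 0) ∧
      ∀ q : Fin (r + (N ^ 2 - r) * n) → Fin 2 → ℂ,
        (∀ i, MvPolynomial.eval (fun ij : Fin (r + (N ^ 2 - r) * n) × Fin 2 => q ij.1 ij.2)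
          (f i) ≠ 0) →
        1 / ((1 + Real.exp (-((n : ℝ) ^ (1 / 10 : ℝ)))) * Real.sqrt n) ≤
          seshadri (N : ℝ) (fun _ : Fin r => (1 : ℝ)) (fun j => q (Fin.castAdd ((N ^ 2 - r) * n) j))
            (fun i => q (Fin.natAdd r i))) ∧
    ∀ r k n : ℕ, 0 < k → 2 ^ 1000 ≤ n →
      ∃ f : ℕ → MvPolynomial (Fin (r + k * n) × Fin 2) ℂ, (∀ i, f i ≠ 0) ∧
      ∀ q : Fin (r + k * n) → Fin 2 → ℂ,
        (∀ i, MvPolynomial.eval (fun ij : Fin (r + k * n) × Fin 2 => q ij.1 ij.2) (f i) ≠ 0) →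
        ∀ (c : ℝ) (l : Fin r → ℝ), (∀ j, 0 ≤ l j) →
        ∀ (p₀ : Fin r → Fin 2 → ℂ) (x₀ : Fin k → Fin 2 → ℂ), NonnegOnCurves c l p₀ →
          seshadri c l p₀ x₀ / ((1 + Real.exp (-((n : ℝ) ^ (1 / 10 : ℝ)))) * Real.sqrt n) ≤
            seshadri c l (fun j => q (Fin.castAdd (k * n) j)) (fun i => q (Fin.natAdd r i)) := by
  classical
  have hEpos : ∀ n : ℕ, 0 < n →
      0 < (1 + Real.exp (-((n : ℝ) ^ (1 / 10 : ℝ)))) * Real.sqrt n := by
    intro n hn
    have := Real.exp_pos (-((n : ℝ) ^ (1 / 10 : ℝ)))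
    have h1 : 0 < Real.sqrt n := Real.sqrt_pos.2 (Nat.cast_pos.2 hn)
    positivity
  have hpow : (0 : ℕ) < 2 ^ 1000 := Nat.pow_pos (by norm_num)
  constructor
  · intro n hn
    have hn0 : 0 < n := lt_of_lt_of_le hpow hn
    have h1 := W609.Sesh.nf_unif hn
    clear hn
    obtain ⟨E, hE⟩ : ∃ E, E = (1 + Real.exp (-((n : ℝ) ^ (1 / 10 : ℝ)))) * Real.sqrt n := ⟨_, rfl⟩
    have hE0 := hEpos n hn0
    rw [← hE] at h1 hE0 ⊢
    obtain ⟨f, hf, hf'⟩ := exists_conds_all (K := ℂ) n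
    refine ⟨f, hf, fun x hx => le_seshadri hn0 fun F e a m h0 hF _ hm => ?_⟩
    have h2 := W609.Sesh.nc_of_nf h1 (hf' x hx) F e m h0 hF hm
    have h3 : (1 / E) * ((∑ i, m i : ℕ) : ℝ) ≤ e := by
      rw [div_mul_eq_mul_div, one_mul, div_le_iff₀ hE0]
      push_cast
      simp only [one_mul] at h2
      linarith
    have h4 : ∑ j : Fin 0, (Fin.elim0 j : ℝ) * (a j : ℝ) = 0 := by simp
    linarith
  constructor
  · intro r N n hN hr hn
    have hn0 : 0 < n := lt_of_lt_of_le hpow hn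
    have hu := W609.Sesh.nf_unif hn
    clear hn
    obtain ⟨E, hE⟩ : ∃ E, E = (1 + Real.exp (-((n : ℝ) ^ (1 / 10 : ℝ)))) * Real.sqrt n := ⟨_, rfl⟩
    have hE0 := hEpos n hn0
    rw [← hE] at hu hE0 ⊢
    obtain ⟨f, hf, hf'⟩ := exists_conds_all (K := ℂ) (r + (N ^ 2 - r) * n)
    refine ⟨f, hf, fun q hq => ?_⟩
    have e1 : N ^ 2 = r + (N ^ 2 - r) := by omega
    have h1 : NB.Nf ℂ (Fin.append (fun _ : Fin r => (1 : ℝ)) (fun _ : Fin (N ^ 2 - r) => 1)) N := by
      refine nf_tr (finCongr e1) (fun i => ?_) (nf_square hN)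
      generalize finCongr e1 i = j
      refine Fin.addCases (fun j => ?_) (fun j => ?_) j
      · rw [Fin.append_left]
      · rw [Fin.append_right]
    have h2 := group hE0 hu (fun _ => zero_le_one) zero_le_one h1
    have h3 := W609.Sesh.nc_of_nf h2 (hf' q hq)
    refine le_seshadri (Nat.mul_pos (by omega) hn0) fun F e a m h0 hF ha hm => ?_
    have h4 := h3 F e (Fin.append a m) h0 hF (fun i => by
      refine Fin.addCases (fun j => ?_) (fun j => ?_) i
      · rw [Fin.append_left]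
        exact ha j
      · rw [Fin.append_right]
        exact hm j)
    rw [Fin.sum_univ_add] at h4
    simp only [Fin.append_left, Fin.append_right] at h4
    rw [← Finset.mul_sum, ← Finset.mul_sum] at h4
    rw [← Finset.mul_sum]
    push_cast
    exact h4
  · intro r k n hk hn
    have hn0 : 0 < n := lt_of_lt_of_le hpow hn
    have hu := W609.Sesh.nf_unif hn
    clear hn
    obtain ⟨E, hE⟩ : ∃ E, E = (1 + Real.exp (-((n : ℝ) ^ (1 / 10 : ℝ)))) * Real.sqrt n := ⟨_, rfl⟩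
    have hE0 := hEpos n hn0
    rw [← hE] at hu hE0 ⊢
    obtain ⟨f, hf, hf'⟩ := exists_conds_all (K := ℂ) (r + k * n)
    refine ⟨f, hf, fun q hq c l hl p₀ x₀ hnef => ?_⟩
    obtain ⟨g1, g2⟩ := bdd_seshadri (x := x₀) hnef
    have h1 : W609.Sesh.NC c (Fin.append l (fun _ : Fin k => seshadri c l p₀ x₀))
        (Fin.append p₀ x₀) := by
      intro F e m h0 hF hm
      have h2 := g2 F e (fun j => m (Fin.castAdd k j)) (fun i => m (Fin.natAdd r i)) h0 hF
        (fun j => by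
          have := hm (Fin.castAdd k j)
          rwa [Fin.append_left] at this)
        (fun i => by
          have := hm (Fin.natAdd r i)
          rwa [Fin.append_right] at this)
      rw [Fin.sum_univ_add]
      simp only [Fin.append_left, Fin.append_right]
      rw [← Finset.mul_sum]
      push_cast at h2
      exact h2
    have h2 := group hE0 hu hl g1 (W609.Sesh.nf_of_nc h1)
    have h3 := W609.Sesh.nc_of_nf h2 (hf' q hq)
    refine le_seshadri (Nat.mul_pos hk hn0) fun F e a m h0 hF ha hm => ?_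
    have h4 := h3 F e (Fin.append a m) h0 hF (fun i => by
      refine Fin.addCases (fun j => ?_) (fun j => ?_) i
      · rw [Fin.append_left]
        exact ha j
      · rw [Fin.append_right]
        exact hm j)
    rw [Fin.sum_univ_add] at h4
    simp only [Fin.append_left, Fin.append_right] at h4
    rw [← Finset.mul_sum] at h4
    push_cast
    exact h4

end Pool.Agent.Results.MP_ed661f_ag.ExponentialSeshadri
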